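import Pool.Agent.URW.S4.Loop

/-!
# URW S4: every vertex which is not a hole lies on a minimal chain (section 4)

If no pair of holes `Legit h₀ h` has a large difference of the angles seen from `v`, the cochain
`lft (Theta v p) (Theta v q)` is exact on the fine surface, but its sum along a far loop around `v` is not `0`.
-/

set_option autoImplicit false

namespace URW

variable {m : ℕ}

private theorem scanl_mul (v w : Wm m) (l : List (Lab m)) :
    l.scanl nW (v * w) = (l.scanl nW w).map fun y => v * y := by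
  induction l generalizing w with
  | nil => rfl
  | cons i l ih =>
    rw [List.scanl_cons, List.scanl_cons, List.map_cons]
    have h : nW (v * w) i = v * nW w i := mul_assoc v w (sg i)
    rw [h, ih]

private theorem wsum_comp {X Y A : Type} [AddCommGroup A] (f : X → Y) (b : Y → Y → A)
    (l : List X) : Srf.wsum b (l.map f) = Srf.wsum (fun x y => b (f x) (f y)) l := by
  induction l with
  | nil => rfl
  | cons x l ih =>
    cases l with
    | nil => rfl
    | cons y l =>
      change b (f x) (f y) + Srf.wsum b ((y :: l).map f) = _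
      rw [ih]
      rfl

namespace Sys

variable {V : Type} [Group V] (X : Sys m V)

private theorem min_ex {x y : Wm m} {ds : List (List (Lab m))} (h : X.Hch x y ds) :
    ∃ ds, X.MinCh x y ds := by
  classical
  have hex : ∃ n, ∃ ds, X.Hch x y ds ∧ ds.flatten.length = n := ⟨_, ds, h, rfl⟩
  obtain ⟨ds', h1, h2⟩ := Nat.find_spec hex
  refine ⟨ds', h1, fun ds'' h3 => ?_⟩
  rw [h2]
  exact Nat.find_min' hex ⟨ds'', h3, rfl⟩

include X in
private theorem m_ge : 100 ≤ m := by
  have := X.hm
  omega

variable [Finite V]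

theorem c1 {v : Wm m} (hv : v ∉ X.HW) :
    ∃ h₀ h, X.Legit h₀ h ∧ X.K2 < sm (ang v h - ang v h₀) := by
  by_contra hcon
  push Not at hcon
  obtain ⟨φ, hφ⟩ := X.exists_pot v hcon
  obtain ⟨w, l, hl, hlen, hsum⟩ := far_loop X.m_ge ((X.k1 + 2) * X.L)
  have hend : walk nW (v * w) l = v * w := by
    rw [walk_nW] at hl ⊢
    rw [mul_assoc, hl]
  have h1 := X.walk_sum hv (v * w) l (fun p hp => by
    have h2 := hlen p hp
    have h3 : v⁻¹ * walk nW (v * w) p = walk nW w p := by
      rw [walk_nW, walk_nW, mul_assoc, inv_mul_cancel_left]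
    rw [h3]
    omega)
  obtain ⟨hw, hh, hla⟩ := walk_fine X.m_ge X.k (v * w) l
  have h4 : Srf.wsum (fun q q' => lft (X.Theta v q) (X.Theta v q'))
      ((plane m).sdk X.k ((l.scanl nW (v * w)).map Sum.inl)) = 0 := by
    rw [Srf.wsum_tele (φ := φ) (fun p q hpq => hφ p q (hpq.chain hw)) hh hla, hend, sub_self]
  rw [h4, hend, sub_self, zero_add, scanl_mul, wsum_comp] at h1
  refine hsum ?_
  rw [h1]
  congr 1
  funext x y
  unfold ang
  rw [inv_mul_cancel_left, inv_mul_cancel_left]

/-- Section 4. -/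
theorem cover (v : V) : v ∈ X.VS X.K2 := by
  by_cases hvH : v ∈ X.H
  · exact Or.inl hvH
  obtain ⟨g, rfl⟩ := X.surj v
  have hg : g ∉ X.HW := hvH
  obtain ⟨h₀, h, hL, hbig⟩ := X.c1 hg
  obtain ⟨hne, p, hb, ht⟩ := hL
  obtain ⟨ds0, hds0⟩ := X.hch_exists hb.1 ht
  obtain ⟨ds, hds⟩ := X.min_ex hds0
  obtain ⟨hlen, hchn, hend, hin⟩ := hds.1
  have hvis : ∃ q, q <+: ds.flatten ∧ walk nW h₀ q = g := by
    by_contra hcon
    push Not at hcon
    have h1 := ang_chn X.m_ge hchn (g := g) (fun q hq => hcon q hq) ds.flatten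
      (List.prefix_refl _)
    rw [hend] at h1
    omega
  obtain ⟨q, hq, hqg⟩ := hvis
  rcases flatten_prefix ds q hq with rfl | ⟨A, B, u, w, hds', hqe, -⟩
  · rw [walk_nil] at hqg
    exact absurd (hqg ▸ hb.1.1) hg
  · right
    refine ⟨h₀, h, A, B, u, w, ⟨hne, p, hb, ht⟩, hds' ▸ hds, ?_, ?_⟩
    · have h1 : ds.length = A.length + (B.length + 1) := by
        rw [hds', List.length_append, List.length_cons]
      omega
    · rw [← hqe, hqg]

end Sys

end URW
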