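import Pool.Agent.URW.B.Ang
import Pool.Agent.URW.Srf.Main

/-!
# URW S4/Lft (package, 1.5 h): small lifts of differences of angles, sums along subdivided walks

`lft a b : ℤ` is the lift of `b - a` if this is small (`sm ≤ m`), and `0` otherwise.

PROOFS.
* `lft_self`, `lft_swap`: `sm_sub_comm`, `lift_neg` (`b - a = -(a - b)`).
* `lft_near`: all of `a - c`, `b - c` have `sm ≤ r`, `2 r ≤ m`; `b - a = (b - c) + -(a - c)`, `sm (b - a) ≤ 2 r ≤ m`
  (`sm_triangle`, `sm_sub_comm`), so `lft a b = (b - a).valMinAbs`, `lift_add`, `lift_neg` (`m ≤ 2 m`).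
* `lft_tri`: with `c = x`: from `lft_near` (three times; `lft x y = (y - x).valMinAbs - (x - x).valMinAbs` …). Here all
  three are within `r` of a common `c`, so the sum telescopes.
* `wsum_lft`: `Srf.wsum_tele` with `φ q = (Θ q - c).valMinAbs` (`Nx.left_mem`, `Nx.right_mem`, `lft_near`).
* `wsum_glue`: induction on `A` (cases: `A = [x]`: `dropLast = []`; `A = y :: z :: A'`: unfold `wsum` once on both sides).
* `wsum_sdk`: induction on `P`: `P = []`, `[x]`: both sums are `0` (`S.sdk k [x]` has one element: `sdk k [x] = [io k x]`,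
  induction on `k`; `sdk k [] = []`). `P = x :: y :: P'`: `sdk_append` with `l = [x]`: `sdk k (x :: y :: P') =
  (sdk k [x, y]).dropLast ++ sdk k (y :: P')`; `last_sdk`, `head_sdk`, `wsum_glue`.
-/

set_option autoImplicit false

namespace URW

variable {m : ℕ}

/-- Small lift of the difference. -/
noncomputable def lft (a b : Ang m) : ℤ := if sm (b - a) ≤ m then (b - a).valMinAbs else 0

theorem lft_self (a : Ang m) : lft a a = 0 := by
  unfold lft
  rw [sub_self, ZMod.valMinAbs_zero]
  split_ifs <;> rfl

theorem lft_swap (a b : Ang m) : lft b a = - lft a b := by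
  unfold lft
  by_cases h : sm (b - a) ≤ m
  · have h' : sm (a - b) ≤ m := by rw [sm_sub_comm]; exact h
    rw [if_pos h, if_pos h', ← lift_neg (b - a) (by omega), neg_sub]
  · have h' : ¬ sm (a - b) ≤ m := by rw [sm_sub_comm]; exact h
    rw [if_neg h, if_neg h', neg_zero]

theorem lft_near {a b c : Ang m} {r : ℕ} (ha : sm (a - c) ≤ r) (hb : sm (b - c) ≤ r)
    (hr : 2 * r ≤ m) : lft a b = (b - c).valMinAbs - (a - c).valMinAbs := by
  have h1 : b - a = (b - c) + -(a - c) := by ring
  have h2 : sm (-(a - c)) ≤ r := by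
    rw [neg_sub, sm_sub_comm]
    exact ha
  have h3 : sm (b - a) ≤ m := by
    have h4 := sm_triangle b c a
    have h5 := sm_sub_comm c a
    omega
  unfold lft
  rw [if_pos h3, h1, lift_add (b - c) (-(a - c)) (by omega) (by omega),
    lift_neg (a - c) (by omega)]
  ring

theorem lft_tri {x y z c : Ang m} {r : ℕ} (hx : sm (x - c) ≤ r) (hy : sm (y - c) ≤ r)
    (hz : sm (z - c) ≤ r) (hr : 2 * r ≤ m) : lft x y + lft y z + lft z x = 0 := by
  rw [lft_near hx hy hr, lft_near hy hz hr, lft_near hz hx hr]
  ring

theorem lft_two {x y z : Ang m} (h : x = y ∨ y = z ∨ x = z) : lft x y + lft y z + lft z x = 0 := by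
  rcases h with rfl | rfl | rfl
  · rw [lft_self, lft_swap x z]
    ring
  · rw [lft_self, lft_swap x y]
    ring
  · rw [lft_self, lft_swap x y]
    ring

theorem wsum_lft {X : Type} (Θ : X → Ang m) (c : Ang m) {r : ℕ} (hr : 2 * r ≤ m) (l : List X)
    {x y : X} (hx : l.head? = some x) (hy : l.getLast? = some y)
    (h : ∀ q ∈ l, sm (Θ q - c) ≤ r) :
    Srf.wsum (fun q q' => lft (Θ q) (Θ q')) l = (Θ y - c).valMinAbs - (Θ x - c).valMinAbs := by
  exact Srf.wsum_tele (φ := fun q => (Θ q - c).valMinAbs)
    (fun p q hpq => lft_near (h p hpq.left_mem) (h q hpq.right_mem) hr) hx hy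

private theorem wsum_cons_head {X A : Type} [AddCommGroup A] (b : X → X → A) (y z : X)
    (L : List X) (h : L.head? = some z) : Srf.wsum b (y :: L) = b y z + Srf.wsum b L := by
  cases L with
  | nil => simp at h
  | cons w L =>
    simp only [List.head?_cons, Option.some.injEq] at h
    subst h
    rfl

theorem wsum_glue {X A : Type} [AddCommGroup A] (b : X → X → A) (l l' : List X) {x : X}
    (hl : l.getLast? = some x) (hl' : l'.head? = some x) :
    Srf.wsum b (l.dropLast ++ l') = Srf.wsum b l + Srf.wsum b l' := by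
  induction l with
  | nil => simp at hl
  | cons y l ih =>
    cases l with
    | nil =>
      change Srf.wsum b l' = 0 + Srf.wsum b l'
      rw [zero_add]
    | cons z l =>
      rw [List.getLast?_cons_cons] at hl
      have h1 := ih hl
      have h2 : ((z :: l).dropLast ++ l').head? = some z := by
        cases l with
        | nil =>
          simp only [List.getLast?_singleton, Option.some.injEq] at hl
          subst hl
          exact hl'
        | cons w l => rfl
      have h3 : (y :: z :: l).dropLast ++ l' = y :: ((z :: l).dropLast ++ l') := rfl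
      rw [h3, wsum_cons_head b y z _ h2, h1]
      change b y z + (Srf.wsum b (z :: l) + Srf.wsum b l') =
        (b y z + Srf.wsum b (z :: l)) + Srf.wsum b l'
      rw [add_assoc]

private theorem sdk_nil {S : Srf} (k : ℕ) : S.sdk k [] = [] := by
  induction k with
  | zero => rfl
  | succ k ih =>
    change Srf.sd (S.sdk k []) = []
    rw [ih]
    rfl

private theorem sdk_one {S : Srf} (k : ℕ) (x : S.V) : S.sdk k [x] = [S.io k x] := by
  induction k with
  | zero => rfl
  | succ k ih =>
    change Srf.sd (S.sdk k [x]) = _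
    rw [ih]
    rfl

theorem wsum_sdk {S : Srf} (k : ℕ) (a : (S.it k).V → (S.it k).V → ℤ) (g : S.V → S.V → ℤ)
    (P : List S.V) (h : ∀ x y, Srf.Nx P x y → Srf.wsum a (S.sdk k [x, y]) = g x y) :
    Srf.wsum a (S.sdk k P) = Srf.wsum g P := by
  induction P with
  | nil =>
    rw [sdk_nil]
    rfl
  | cons x P ih =>
    cases P with
    | nil =>
      rw [sdk_one]
      rfl
    | cons y P =>
      have h1 := ih fun u v huv => h u v (Or.inr huv)
      have h2 := Srf.sdk_append k [x] P y (S := S)
      have h3 : S.sdk k (x :: y :: P) = (S.sdk k [x, y]).dropLast ++ S.sdk k (y :: P) := h2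
      have h4 : (S.sdk k [x, y]).getLast? = some (S.io k y) := by
        rw [Srf.last_sdk]
        rfl
      have h5 : (S.sdk k (y :: P)).head? = some (S.io k y) := by
        rw [Srf.head_sdk]
        rfl
      rw [h3, wsum_glue a _ _ h4 h5, h1, h x y (Or.inl ⟨rfl, rfl⟩)]
      rfl

end URW
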