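import Pool.Agent.URW.S4.Theta

/-!
# URW S4/Loop (package, 2 h): on far walks `Theta` is close to the angle

PROOFS.
* `theta_far`: `w ∈ near q`, `w` far from `v`: `(k1 + 2) L < len (v⁻¹ w)` (and `≥ 2`, so that `v` is not in the square). If a hole `h`
  is near `q`: `Theta v q = ang v h` (`theta_hole`), `h` and `w` are in one square (`near_adj`), `ang_sq` (`≤ 2 ≤ k1 + 2`; `h ≠ v` since
  `v ∉ HW`, `w ≠ v` since its length is positive). If there is no hole near, `Ok q`: if `IsBase q h₀` (then `Tch q h₀`):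
  `tch_far` gives `Con {v} (k1 + 2) w h₀`, `ang_con`. Otherwise `theta_free` gives `w'` with `Cls q r`, `w' ∈ near r`, `cls_con` gives
  `Con HW k1 w w'`, `con_far` (with `k1 L ≤ (k1 + 2) L`) and `ang_con`.
* `near_edge`: the fine vertices of `sdk k [inl x, inl y]` have carrier `{inl x}`, `{inl y}` or `{inl x, inl y}` (`mem_sdk`), so
  `near q ⊆ {x, y}` and `near q` is nonempty. They are used (`wlk_sdk`, `adj_edge`: a walk with at least two vertices, or
  each vertex of the walk has a neighbour; `Used (io k (inl x))` is `used_io`; for `q` of carrier `{inl x, inl y}`: `q` is in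
  `sdk k [..]` which is a walk with more than one vertex).
* `edge_sum`: `y = x s_i`; all `q` of `sdk k [inl x, inl y]` satisfy `sm (Theta q - ang v x) ≤ k1 + 3` (`theta_far` for `w = x` or `w = y`,
  `ang_edge`, `sm_triangle`). `wsum_lft` with `c = ang v x`, `r = k1 + 3`; and
  `(Theta y - ang v x).valMinAbs = (Theta y - ang v y).valMinAbs + (ang v y - ang v x).valMinAbs` (`lift_add`).
* `loop_sum`: `wsum_sdk` with `g x y = e y - e x + (ang v y - ang v x).valMinAbs`, `e x = (Theta (io x) - ang v x).valMinAbs` (on `inl`);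
  a closed walk: the telescoping part is `0` (`wsum_tele`-like: split the sum; induction on the word), so
  `wsum lft (sdk k P) = wsum inc_v`, where `P = (l.scanl nW x).map inl`.
-/

set_option autoImplicit false

namespace URW

variable {m : ℕ}

private theorem scanl_head {α β : Type} (f : β → α → β) (b : β) (l : List α) :
    ∃ rest, l.scanl f b = b :: rest := by
  cases l with
  | nil => exact ⟨[], rfl⟩
  | cons a l => exact ⟨_, List.scanl_cons ..⟩

namespace Sys

variable {V : Type} [Group V] (X : Sys m V) [Finite V]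

theorem theta_far {v w : Wm m} (hv : v ∉ X.HW) {q : (Fine m X.k).V} (hq : Used q)
    (hw : w ∈ near q) (hf : (X.k1 + 2) * X.L < UWW.len (v⁻¹ * w)) :
    sm (X.Theta v q - ang v w) ≤ X.k1 + 2 := by
  have hm : 100 ≤ m := X.hm100
  have hvw : w ≠ v := by
    rintro rfl
    rw [inv_mul_cancel, UWW.len_eq_zero.2 rfl] at hf
    omega
  by_cases hH : ∃ h ∈ X.HW, h ∈ near q
  · obtain ⟨h, hh, hn⟩ := hH
    rw [X.theta_hole v hq hh hn]
    obtain ⟨q', hq'⟩ := hq
    obtain ⟨w', i, hs⟩ := near_adj hm hq'
    have hhv : h ≠ v := by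
      rintro rfl
      exact hv hh
    have := ang_sq hm (hs (Or.inl hn)) (hs (Or.inl hw)) hhv hvw
    omega
  · have hok : X.Ok q := ⟨hq, fun w' hw' hH' => hH ⟨w', hH', hw'⟩⟩
    by_cases hB : ∃ h₀, X.IsBase q h₀
    · obtain ⟨h₀, hb⟩ := hB
      rw [X.theta_base v hb]
      exact ang_con hm (Set.mem_singleton v) (X.tch_far hb.1 hw hf)
    · obtain ⟨w', ⟨r, hr, hw'⟩, he⟩ := X.theta_free v hok (fun h₀ h => hB ⟨h₀, h⟩)
      rw [he]
      have h1 := X.cls_con hr hw hw'
      have h2 : X.k1 * X.L < UWW.len (v⁻¹ * w) := by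
        have h3 : X.k1 * X.L ≤ (X.k1 + 2) * X.L := Nat.mul_le_mul_right _ (by omega)
        omega
      have h4 := ang_con hm (Set.mem_union_right X.HW (Set.mem_singleton v)) (X.con_far h1 h2)
      omega

theorem near_edge (hm : 100 ≤ m) {k : ℕ} (x : Wm m) (i : Lab m) {q : (Fine m k).V}
    (hq : q ∈ (plane m).sdk k [Sum.inl x, Sum.inl (x * sg i)]) :
    Used q ∧ (x ∈ near q ∨ x * sg i ∈ near q) := by
  have hG := plane_good (m := m) hm
  set y : Wm m := x * sg i with hy
  have hW : (plane m).Wlk [Sum.inl x, Sum.inl y] :=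
    List.isChain_cons_cons.2 ⟨adj_edge hm x i, List.isChain_singleton _⟩
  have hWk := Srf.wlk_sdk hG k hW
  constructor
  · by_cases hlast : ((plane m).sdk k [Sum.inl x, Sum.inl y]).getLast? = some q
    · rw [Srf.last_sdk] at hlast
      have h1 : (plane m).io k (Sum.inl y) = q := Option.some.inj hlast
      rw [← h1]
      exact used_io hm y
    · obtain ⟨b, hb⟩ := Srf.exists_next hq hlast
      exact ⟨b, hb.chain hWk⟩
  · have key : ∃ a ∈ (plane m).car k q, a = Sum.inl x ∨ a = Sum.inl y := by
      rcases Srf.mem_sdk k hq with ⟨z, hz, hc⟩ | ⟨A, a, b, B, hl, hc⟩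
      · refine ⟨z, by rw [hc]; exact Set.mem_singleton z, ?_⟩
        simpa using hz
      · have ha0 : a ∈ A ++ a :: b :: B := List.mem_append_right A List.mem_cons_self
        have ha : a ∈ ([Sum.inl x, Sum.inl y] : List (plane m).V) := hl ▸ ha0
        refine ⟨a, by rw [hc]; exact Set.mem_insert a _, ?_⟩
        rcases List.mem_cons.1 ha with h | h
        · exact Or.inl h
        · exact Or.inr (List.mem_singleton.1 h)
    obtain ⟨a, ha, h1 | h1⟩ := key
    · left
      exact ⟨a, ha, by rw [h1]; exact Set.mem_singleton x⟩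
    · right
      exact ⟨a, ha, by rw [h1]; exact Set.mem_singleton y⟩

theorem edge_sum {v x : Wm m} {i : Lab m} (hv : v ∉ X.HW)
    (hx : (X.k1 + 2) * X.L < UWW.len (v⁻¹ * x))
    (hy : (X.k1 + 2) * X.L < UWW.len (v⁻¹ * (x * sg i))) :
    Srf.wsum (fun q q' => lft (X.Theta v q) (X.Theta v q'))
        ((plane m).sdk X.k [Sum.inl x, Sum.inl (x * sg i)]) =
      (X.Theta v ((plane m).io X.k (Sum.inl (x * sg i))) - ang v (x * sg i)).valMinAbs -
        (X.Theta v ((plane m).io X.k (Sum.inl x)) - ang v x).valMinAbs +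
        (ang v (x * sg i) - ang v x).valMinAbs := by
  have hm : 100 ≤ m := X.hm100
  have hbm := X.hm
  have hk1 : X.k1 = 2 * (X.K + 2) := rfl
  set y : Wm m := x * sg i with hyd
  have hxv : x ≠ v := by
    rintro rfl
    rw [inv_mul_cancel, UWW.len_eq_zero.2 rfl] at hx
    omega
  have hyv : y ≠ v := by
    intro h
    rw [h, inv_mul_cancel, UWW.len_eq_zero.2 rfl] at hy
    omega
  have hedge : sm (ang v y - ang v x) ≤ 1 := ang_edge hm hxv hyv
  have hfar : ∀ q ∈ (plane m).sdk X.k [Sum.inl x, Sum.inl y],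
      sm (X.Theta v q - ang v x) ≤ X.k1 + 3 := by
    intro q hq
    obtain ⟨hu, hn | hn⟩ := near_edge hm x i hq
    · have := X.theta_far hv hu hn hx
      omega
    · have h1 : sm (X.Theta v q - ang v y) ≤ X.k1 + 2 := X.theta_far hv hu hn hy
      have h2 := sm_triangle (X.Theta v q) (ang v y) (ang v x)
      omega
  have hhead : ((plane m).sdk X.k [Sum.inl x, Sum.inl y]).head? =
      some ((plane m).io X.k (Sum.inl x)) := by
    rw [Srf.head_sdk]
    rfl
  have hlast : ((plane m).sdk X.k [Sum.inl x, Sum.inl y]).getLast? =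
      some ((plane m).io X.k (Sum.inl y)) := by
    rw [Srf.last_sdk]
    rfl
  rw [wsum_lft (X.Theta v) (ang v x) (r := X.k1 + 3) (by omega) _ hhead hlast hfar]
  have hy2 : sm (X.Theta v ((plane m).io X.k (Sum.inl y)) - ang v y) ≤ X.k1 + 2 := by
    refine X.theta_far hv (used_io hm y) ?_ hy
    rw [near_io]
    exact Set.mem_singleton y
  have h3 := lift_add (X.Theta v ((plane m).io X.k (Sum.inl y)) - ang v y)
    (ang v y - ang v x) (by omega) (by omega)
  rw [sub_add_sub_cancel] at h3
  rw [h3]
  ring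

/-- The sum along a far walk. -/
theorem walk_sum {v : Wm m} (hv : v ∉ X.HW) (x : Wm m) (l : List (Lab m))
    (hl : ∀ p, p <+: l → (X.k1 + 2) * X.L < UWW.len (v⁻¹ * walk nW x p)) :
    Srf.wsum (fun q q' => lft (X.Theta v q) (X.Theta v q'))
        ((plane m).sdk X.k ((l.scanl nW x).map Sum.inl)) =
      (X.Theta v ((plane m).io X.k (Sum.inl (walk nW x l))) - ang v (walk nW x l)).valMinAbs -
        (X.Theta v ((plane m).io X.k (Sum.inl x)) - ang v x).valMinAbs +
        Srf.wsum (fun x y : Wm m => (ang v y - ang v x).valMinAbs) (l.scanl nW x) := by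
  induction l generalizing x with
  | nil =>
    have h1 : Srf.wsum (fun q q' => lft (X.Theta v q) (X.Theta v q'))
        ((plane m).sdk X.k [Sum.inl x]) = Srf.wsum (fun _ _ => (0 : ℤ))
          ([Sum.inl x] : List (plane m).V) :=
      wsum_sdk X.k _ _ _ fun a b h => h.elim
    refine h1.trans ?_
    change (0 : ℤ) = (X.Theta v ((plane m).io X.k (Sum.inl x)) - ang v x).valMinAbs -
      (X.Theta v ((plane m).io X.k (Sum.inl x)) - ang v x).valMinAbs + 0
    ring
  | cons i l ih =>
    obtain ⟨rest, hr⟩ := scanl_head nW (nW x i) l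
    have hx := hl [] List.nil_prefix
    have hy := hl [i] ⟨l, rfl⟩
    have he := X.edge_sum (i := i) hv hx hy
    have hih := ih (nW x i) fun p hp => hl (i :: p) (List.cons_prefix_cons.2 ⟨rfl, hp⟩)
    have hsc : (i :: l).scanl nW x = x :: l.scanl nW (nW x i) := List.scanl_cons ..
    rw [hsc, hr] at *
    have h1 : (plane m).sdk X.k ((x :: nW x i :: rest).map Sum.inl) =
        ((plane m).sdk X.k [Sum.inl x, Sum.inl (nW x i)]).dropLast ++
          (plane m).sdk X.k ((nW x i :: rest).map Sum.inl) :=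
      Srf.sdk_append (S := plane m) X.k [Sum.inl x] (rest.map Sum.inl) (Sum.inl (nW x i))
    have h2 : ((plane m).sdk X.k [Sum.inl x, Sum.inl (nW x i)]).getLast? =
        some ((plane m).io X.k (Sum.inl (nW x i))) := by
      rw [Srf.last_sdk]
      rfl
    have h3 : ((plane m).sdk X.k ((nW x i :: rest).map Sum.inl)).head? =
        some ((plane m).io X.k (Sum.inl (nW x i))) := by
      rw [Srf.head_sdk]
      rfl
    rw [h1, wsum_glue _ _ _ h2 h3, hih]
    have he' : Srf.wsum (fun q q' => lft (X.Theta v q) (X.Theta v q'))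
        ((plane m).sdk X.k [Sum.inl x, Sum.inl (nW x i)]) =
      (X.Theta v ((plane m).io X.k (Sum.inl (nW x i))) - ang v (nW x i)).valMinAbs -
        (X.Theta v ((plane m).io X.k (Sum.inl x)) - ang v x).valMinAbs +
        (ang v (nW x i) - ang v x).valMinAbs := he
    rw [he', walk_cons]
    change _ = _ + ((ang v (nW x i) - ang v x).valMinAbs + _)
    ring

/-- The subdivided walk is a walk with the expected ends. -/
theorem walk_fine (hm : 100 ≤ m) (k : ℕ) (x : Wm m) (l : List (Lab m)) :
    (Fine m k).Wlk ((plane m).sdk k ((l.scanl nW x).map Sum.inl)) ∧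
      ((plane m).sdk k ((l.scanl nW x).map Sum.inl)).head? =
        some ((plane m).io k (Sum.inl x)) ∧
      ((plane m).sdk k ((l.scanl nW x).map Sum.inl)).getLast? =
        some ((plane m).io k (Sum.inl (walk nW x l))) := by
  have hG := plane_good (m := m) hm
  have hW : ∀ (l : List (Lab m)) (x : Wm m),
      (plane m).Wlk ((l.scanl nW x).map Sum.inl) := by
    intro l
    induction l with
    | nil => exact fun x => List.isChain_singleton _
    | cons i l ih =>
      intro x
      obtain ⟨rest, hr⟩ := scanl_head nW (nW x i) l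
      have hsc : (i :: l).scanl nW x = x :: l.scanl nW (nW x i) := List.scanl_cons ..
      have h1 := ih (nW x i)
      rw [hsc]
      rw [hr] at h1 ⊢
      exact List.isChain_cons_cons.2 ⟨adj_edge hm x i, h1⟩
  have hL : ∀ (l : List (Lab m)) (x : Wm m), (l.scanl nW x).getLast? = some (walk nW x l) := by
    intro l
    induction l with
    | nil => exact fun x => rfl
    | cons i l ih =>
      intro x
      obtain ⟨rest, hr⟩ := scanl_head nW (nW x i) l
      have hsc : (i :: l).scanl nW x = x :: l.scanl nW (nW x i) := List.scanl_cons ..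
      have h1 := ih (nW x i)
      rw [hsc, walk_cons]
      rw [hr] at h1 ⊢
      rw [List.getLast?_cons_cons]
      exact h1
  refine ⟨Srf.wlk_sdk hG k (hW l x), ?_, ?_⟩
  · rw [Srf.head_sdk]
    obtain ⟨rest, hr⟩ := scanl_head nW x l
    rw [hr]
    rfl
  · rw [Srf.last_sdk, List.getLast?_map, hL]
    rfl

end Sys

end URW
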