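import Pool.Agent.URW.S4.Lft
import Pool.Agent.URW.B.Tch

/-!
# URW S4/Theta (package, 1.5 h): the angle of a fine vertex seen from `v`

Fix `v`, not a hole. `Theta v q`: `ang v h` if a hole `h` is near `q`; else `ang v h₀` if the class of `q` touches a hole,
`h₀` its base hole; else `ang v w` for a chosen corner `w` near the class.

PROOFS.
* `theta_hole`: the chosen hole is `h`: both are in one square (`near_adj` for `q` used) and `hole_sq`.
* `theta_base`: no hole near `q` (`Ok`, from `IsBase`: `Tch q h₀` contains `Cls q _`, so `Ok q`), the chosen base hole is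
  `h₀` (`base_unique`).
* `theta_cls`: for `Cls q q'` (both `Ok`: no holes near): `IsBase q h₀ ↔ IsBase q' h₀` (`base_cls`, `cls_symm`), so if one exists
  both values are `ang v h₀`; else both values are given by the choice for the same set
  (`{w | ∃ r, Cls q r ∧ w ∈ near r} = {w | ∃ r, Cls q' r ∧ w ∈ near r}`, `cls_trans`, `cls_symm`).
* `theta_tri`: `hno`: no pair `Legit h₀ h` has `sm (ang v h - ang v h₀) > K2`. Fine triangle `p, q, r` (all used:
  `used_of_adj`). If a hole `h` is near one of them: all corners near `p, q, r` are in one square (`near_tri`), so `h` is the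
  only hole near any of them. Each value is within `K2` of `ang v h`: if `h` is near the vertex it is `ang v h`; otherwise
  the vertex is `Ok` and adjacent to a vertex with `h` near, so `Tch _ h` (with `cls_refl`), `base_exists` gives the base hole
  `h₀`; `h₀ = h` or `Legit h₀ h` and `hno`. Then `lft_tri` (`2 K2 ≤ m` by `hm`). If there is no hole near: all `Ok`, `tri_cls`,
  `theta_cls`, `lft_two`.
* `exists_pot`: `Good.it (plane_good) k`, field `exact` with `A = ℤ`; `lft_swap`, `theta_tri`.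
-/

set_option autoImplicit false

namespace URW

variable {m : ℕ}

namespace Sys

variable {V : Type} [Group V] (X : Sys m V) [Finite V]

/-- The corners near the class of `q`. -/
def ncl (q : (Fine m X.k).V) : Set (Wm m) := {w | ∃ r, X.Cls q r ∧ w ∈ near r}

open Classical in
/-- The angle of a fine vertex seen from `v`. -/
noncomputable def Theta (v : Wm m) (q : (Fine m X.k).V) : Ang m :=
  if h : ∃ h ∈ X.HW, h ∈ near q then ang v h.choose
  else if h : ∃ h₀, X.IsBase q h₀ then ang v h.choose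
  else ang v (Classical.epsilon fun w => w ∈ X.ncl q)

theorem theta_hole (v : Wm m) {q : (Fine m X.k).V} (hq : Used q) {h : Wm m} (hh : h ∈ X.HW)
    (hn : h ∈ near q) : X.Theta v q = ang v h := by
  have hex : ∃ h ∈ X.HW, h ∈ near q := ⟨h, hh, hn⟩
  unfold Theta
  rw [dif_pos hex]
  obtain ⟨q', hq'⟩ := hq
  obtain ⟨w, i, hw⟩ := near_adj X.hm100 hq'
  have hs := hex.choose_spec
  rw [X.hole_sq hs.1 hh (hw (Or.inl hs.2)) (hw (Or.inl hn))]

theorem theta_base (v : Wm m) {q : (Fine m X.k).V} {h₀ : Wm m} (h : X.IsBase q h₀) :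
    X.Theta v q = ang v h₀ := by
  obtain ⟨⟨_, q₁, q₂, hc, _, _⟩, _⟩ := id h
  have hno : ¬ ∃ h ∈ X.HW, h ∈ near q := by
    rintro ⟨w, hw, hn⟩
    exact (X.cls_ok hc).1.2 w hn hw
  have hex : ∃ h₀, X.IsBase q h₀ := ⟨h₀, h⟩
  unfold Theta
  rw [dif_neg hno, dif_pos hex]
  rw [X.base_unique hex.choose_spec h]

theorem theta_cls (v : Wm m) {q q' : (Fine m X.k).V} (h : X.Cls q q') :
    X.Theta v q = X.Theta v q' := by
  by_cases hex : ∃ h₀, X.IsBase q h₀
  · obtain ⟨h₀, hb⟩ := hex
    rw [X.theta_base v hb, X.theta_base v (X.base_cls hb (X.cls_symm h))]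
  · have hex' : ¬ ∃ h₀, X.IsBase q' h₀ := by
      rintro ⟨h₀, hb⟩
      exact hex ⟨h₀, X.base_cls hb h⟩
    have hno : ¬ ∃ h ∈ X.HW, h ∈ near q := by
      rintro ⟨w, hw, hn⟩
      exact (X.cls_ok h).1.2 w hn hw
    have hno' : ¬ ∃ h ∈ X.HW, h ∈ near q' := by
      rintro ⟨w, hw, hn⟩
      exact (X.cls_ok h).2.1.2 w hn hw
    have hs : X.ncl q = X.ncl q' := by
      ext w
      constructor
      · rintro ⟨r, hr, hw⟩
        exact ⟨r, X.cls_trans (X.cls_symm h) hr, hw⟩
      · rintro ⟨r, hr, hw⟩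
        exact ⟨r, X.cls_trans h hr, hw⟩
    unfold Theta
    rw [dif_neg hno, dif_neg hex, dif_neg hno', dif_neg hex', hs]

/-- The class of `q` touches no hole. -/
theorem theta_free (v : Wm m) {q : (Fine m X.k).V} (hq : X.Ok q) (h : ∀ h₀, ¬ X.IsBase q h₀) :
    ∃ w ∈ X.ncl q, X.Theta v q = ang v w := by
  have hno : ¬ ∃ h ∈ X.HW, h ∈ near q := by
    rintro ⟨w, hw, hn⟩
    exact hq.2 w hn hw
  have hex : ¬ ∃ h₀, X.IsBase q h₀ := by
    rintro ⟨h₀, hb⟩
    exact h h₀ hb
  obtain ⟨w, hw⟩ := near_nonempty X.hm100 hq.1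
  have hw' : ∃ w, w ∈ X.ncl q := ⟨w, q, X.cls_refl hq, hw⟩
  refine ⟨Classical.epsilon fun w => w ∈ X.ncl q, Classical.epsilon_spec hw', ?_⟩
  unfold Theta
  rw [dif_neg hno, dif_neg hex]

theorem theta_tri (v : Wm m)
    (hno : ∀ h₀ h, X.Legit h₀ h → sm (ang v h - ang v h₀) ≤ X.K2) {p q r : (Fine m X.k).V}
    (hT : (Fine m X.k).T p q r) :
    lft (X.Theta v p) (X.Theta v q) + lft (X.Theta v q) (X.Theta v r) +
      lft (X.Theta v r) (X.Theta v p) = 0 := by
  have hm := X.hm100
  have hg := (plane_good hm).it X.k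
  have hT2 : (Fine m X.k).T q r p := hg.rot _ _ _ hT
  have hT3 : (Fine m X.k).T r p q := hg.rot _ _ _ hT2
  have apq : (Fine m X.k).Adj p q := ⟨r, hT⟩
  have aqr : (Fine m X.k).Adj q r := ⟨p, hT2⟩
  have arp : (Fine m X.k).Adj r p := ⟨q, hT3⟩
  have aqp := adj_symm hm apq
  have arq := adj_symm hm aqr
  have apr := adj_symm hm arp
  have up : Used p := ⟨_, apq⟩
  have uq : Used q := ⟨_, aqr⟩
  have ur : Used r := ⟨_, arp⟩
  obtain ⟨w, i, hw⟩ := near_tri hm hT
  have sp : ∀ a ∈ near p, a ∈ sqv nW w i := fun a ha => hw (Or.inl (Or.inl ha))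
  have sq : ∀ a ∈ near q, a ∈ sqv nW w i := fun a ha => hw (Or.inl (Or.inr ha))
  have sr : ∀ a ∈ near r, a ∈ sqv nW w i := fun a ha => hw (Or.inr ha)
  have hK : 2 * X.K2 ≤ m := by
    have := X.hm
    unfold K2
    omega
  by_cases hh : ∃ h ∈ X.HW, h ∈ near p ∨ h ∈ near q ∨ h ∈ near r
  · obtain ⟨h, hH, hn⟩ := hh
    have hsq : h ∈ sqv nW w i := by
      rcases hn with hn | hn | hn
      · exact sp h hn
      · exact sq h hn
      · exact sr h hn
    have key : ∀ x y : (Fine m X.k).V, Used x → (∀ a ∈ near x, a ∈ sqv nW w i) →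
        (h ∈ near x ∨ ((Fine m X.k).Adj x y ∧ h ∈ near y)) →
        sm (X.Theta v x - ang v h) ≤ X.K2 := by
      intro x y ux sx hxy
      by_cases hx : h ∈ near x
      · rw [X.theta_hole v ux hH hx, sub_self, sm_zero]
        exact Nat.zero_le _
      · obtain ⟨axy, hy⟩ := hxy.resolve_left hx
        have okx : X.Ok x := by
          refine ⟨ux, fun a ha haH => hx ?_⟩
          rw [← X.hole_sq haH hH (sx a ha) hsq]
          exact ha
        have ht : X.Tch x h := ⟨hH, x, y, X.cls_refl okx, axy, hy⟩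
        obtain ⟨h₀, hb⟩ := X.base_exists ht
        rw [X.theta_base v hb]
        by_cases he : h₀ = h
        · rw [he, sub_self, sm_zero]
          exact Nat.zero_le _
        · have hl : X.Legit h₀ h := ⟨he, x, hb, ht⟩
          have := hno h₀ h hl
          rwa [sm_sub_comm] at this
    have hp : sm (X.Theta v p - ang v h) ≤ X.K2 := by
      rcases hn with hn | hn | hn
      · exact key p p up sp (Or.inl hn)
      · exact key p q up sp (Or.inr ⟨apq, hn⟩)
      · exact key p r up sp (Or.inr ⟨apr, hn⟩)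
    have hq : sm (X.Theta v q - ang v h) ≤ X.K2 := by
      rcases hn with hn | hn | hn
      · exact key q p uq sq (Or.inr ⟨aqp, hn⟩)
      · exact key q q uq sq (Or.inl hn)
      · exact key q r uq sq (Or.inr ⟨aqr, hn⟩)
    have hr : sm (X.Theta v r - ang v h) ≤ X.K2 := by
      rcases hn with hn | hn | hn
      · exact key r p ur sr (Or.inr ⟨arp, hn⟩)
      · exact key r q ur sr (Or.inr ⟨arq, hn⟩)
      · exact key r r ur sr (Or.inl hn)
    exact lft_tri hp hq hr hK
  · have okp : X.Ok p := ⟨up, fun a ha haH => hh ⟨a, haH, Or.inl ha⟩⟩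
    have okq : X.Ok q := ⟨uq, fun a ha haH => hh ⟨a, haH, Or.inr (Or.inl ha)⟩⟩
    have okr : X.Ok r := ⟨ur, fun a ha haH => hh ⟨a, haH, Or.inr (Or.inr ha)⟩⟩
    apply lft_two
    rcases X.tri_cls hT okp okq okr with h | h | h
    · exact Or.inl (X.theta_cls v h)
    · exact Or.inr (Or.inl (X.theta_cls v h))
    · exact Or.inr (Or.inr (X.theta_cls v h))

/-- The sums along closed fine walks vanish. -/
theorem exists_pot (v : Wm m)
    (hno : ∀ h₀ h, X.Legit h₀ h → sm (ang v h - ang v h₀) ≤ X.K2) :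
    ∃ φ : (Fine m X.k).V → ℤ, ∀ p q, (Fine m X.k).Adj p q →
      lft (X.Theta v p) (X.Theta v q) = φ q - φ p := by
  exact ((plane_good X.hm100).it X.k).exact ℤ
    (fun p q => lft (X.Theta v p) (X.Theta v q)) (fun p q => lft_swap _ _)
    (fun p q r hT => X.theta_tri v hno hT)

end Sys

end URW
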